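import Mathlib
import Pool.Agent.K3h95.DG.Final

/-!
# The long-range discrete Gaussian chain: `Var ≥ c N ^ (α - 2)` at all temperatures

Idea: for an integer valued profile `h` the law of `φ + h` has density
`exp (2 β B(φ, h) - β H(h))` with respect to the law `P` of `φ`, and since the lattice is invariant under
integer translations, the overlaps are `E_P [f_h f_h'] = exp (2 β B(h, h'))`, exactly as for the real
Gaussian field. Average over random pyramids `h` of height `k` (sums of indicators of `k` nested
intervals with independent random ends). The ends interact through a decaying kernel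
`d ^ (-(α - 2))`, and so for `k` of order `N ^ ((α - 2) / 2)` the averaged density has bounded second
moment, while the mean height at the origin is `k`. The Hammersley-Chapman-Robbins inequality
then gives the bound.
-/

set_option autoImplicit false

namespace Pool.Agent.Results.MP_57c4e5_pr.SharpLowerBound

/-- For every `α ∈ (2,3)` and every `β > 0` there is `c > 0` such that for all `N ≥ 1` the variance of
the height at the origin of the discrete Gaussian chain in `[-N, N]` with zero boundary condition is at
least `c N ^ (α - 2)`. (The sum over `p` runs over ordered pairs.) -/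
theorem result :
    ∀ α : ℝ, 2 < α → α < 3 → ∀ β : ℝ, 0 < β → ∃ c : ℝ, 0 < c ∧ ∀ N : ℕ, 1 ≤ N →
      c * (N : ℝ) ^ (α - 2) ≤
        (∑' φ : {φ : ℤ → ℤ // ∀ x : ℤ, (N : ℤ) < |x| → φ x = 0},
            ((φ.1 0 : ℝ)) ^ 2 *
              Real.exp (-β * ∑' p : ℤ × ℤ,
                (if p.1 = p.2 then (0 : ℝ)
                 else ((|p.1 - p.2| : ℤ) : ℝ) ^ (-α) *
                   ((φ.1 p.1 : ℝ) - (φ.1 p.2 : ℝ)) ^ 2))) /
        (∑' φ : {φ : ℤ → ℤ // ∀ x : ℤ, (N : ℤ) < |x| → φ x = 0},
            Real.exp (-β * ∑' p : ℤ × ℤ,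
              (if p.1 = p.2 then (0 : ℝ)
               else ((|p.1 - p.2| : ℤ) : ℝ) ^ (-α) *
                 ((φ.1 p.1 : ℝ) - (φ.1 p.2 : ℝ)) ^ 2))) := by
  intro α hα hα3 β hβ
  obtain ⟨c, hc, h⟩ := Pool.Agent.K3h95.DG.V_ge_rpow hα hα3 hβ
  refine ⟨c, hc, fun N hN => ?_⟩
  have h2 := h N hN
  rw [Pool.Agent.K3h95.DG.V_eq] at h2
  exact h2

end Pool.Agent.Results.MP_57c4e5_pr.SharpLowerBound
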